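import Pool.Agent.H282R4.PU.Defs

namespace H282R4.PU

open MeasureTheory
open H282R3.SQ (USq)

theorem count_sum {d H : ℕ} (hd : 100 ≤ d) (hH : 6 * d ^ 2 ≤ H) (hH' : H ≤ 30 * d ^ 2) :
    ∑ a ∈ idx d H, (if a.1 = 0 then (10 : ℝ) / d else
      open Classical in if a.2.1 < d ∧ 1 ≤ a.2.1 ∧ Active d H (a.2.1 - 1) a.2.2 then (40 : ℝ) / d else 3)
      ≤ 400 * (d : ℝ) ^ 2 := sorry

end H282R4.PU
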