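import Pool.Agent.H282R4.PU.Defs

namespace H282R4.PU

open MeasureTheory
open H282R3.SQ (USq)

theorem Wle_mono {Ω : Set (ℝ × ℝ)} {w w' : ℝ} (h : Wle Ω w) (hw : w ≤ w') : Wle Ω w' := sorry

theorem Wle_union {ι : Type*} (S : Finset ι) (Ω E : Set (ℝ × ℝ)) (C : ι → Set (ℝ × ℝ)) (w : ι → ℝ)
    (e : ℝ) (he : 0 ≤ e) (hsub : ∀ i ∈ S, C i ⊆ Ω)
    (hdis : ∀ i ∈ S, ∀ j ∈ S, i ≠ j → Disjoint (interior (C i)) (interior (C j)))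
    (hcov : Ω ⊆ (⋃ i ∈ S, C i) ∪ E) (hE : volume E ≤ ENNReal.ofReal e)
    (hw : ∀ i ∈ S, Wle (C i) (w i)) : Wle Ω (∑ i ∈ S, w i + e) := sorry

theorem Wle_translate {Ω : Set (ℝ × ℝ)} {w : ℝ} (h : Wle Ω w) (v : ℝ × ℝ) :
    Wle {z | (z.1 - v.1, z.2 - v.2) ∈ Ω} w := sorry

theorem Wle_rot {Ω : Set (ℝ × ℝ)} {w : ℝ} (h : Wle Ω w) (v : ℝ × ℝ) :
    Wle {z | (v.1 - z.1, v.2 - z.2) ∈ Ω} w := sorry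

theorem Wle_swap {Ω : Set (ℝ × ℝ)} {w : ℝ} (h : Wle Ω w) :
    Wle {z | (z.2, z.1) ∈ Ω} w := sorry

end H282R4.PU
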