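import Pool.Agent.H282R4.PU.Defs

namespace H282R4.PU

open MeasureTheory
open H282R3.SQ (USq)

theorem t_bounds {d : ℕ} (hd : 100 ≤ d) : 0 < t d ∧ t d ≤ 1 / (d : ℝ) ^ 2 ∧
    t d * ((d : ℝ) ^ 2 + 2) = 1 := sorry

theorem s_bounds {d : ℕ} (hd : 100 ≤ d) : 1 < s d ∧ s d ≤ 1 + t d ^ 2 / 2 ∧ s d ^ 2 = 1 + t d ^ 2 ∧
    1 + t d ^ 2 / 4 ≤ s d := sorry

theorem tau_bounds {d : ℕ} (hd : 100 ≤ d) {q : ℕ} (hq : q ≤ d) :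
    3 / (4 * (d : ℝ)) ≤ tau d q ∧ tau d q ≤ 1 / d := sorry

theorem tau_anti {d : ℕ} (hd : 100 ≤ d) {q q' : ℕ} (h : q ≤ q') (hq : q' ≤ d) :
    tau d q' ≤ tau d q ∧ tau d q ≤ tau d q' + (q' - q) / (4 * (d : ℝ) ^ 2) := sorry

theorem kap_bounds {d : ℕ} (hd : 100 ≤ d) {q : ℕ} (hq : q ≤ d) :
    1 < kap d q ∧ kap d q ≤ 1 + 1 / (2 * (d : ℝ) ^ 2) ∧ kap d q ^ 2 = 1 + tau d q ^ 2 := sorry

theorem phi_bounds {d : ℕ} (hd : 100 ≤ d) {q : ℕ} (hq : q ≤ d) :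
    7 / (10 * (d : ℝ)) ≤ phi d q ∧ phi d q ≤ tau d q := sorry

theorem phi_anti {d : ℕ} (hd : 100 ≤ d) {q q' : ℕ} (h : q ≤ q') (hq : q' ≤ d) :
    phi d q' ≤ phi d q := sorry

theorem eps_eq {d : ℕ} (hd : 100 ≤ d) {q : ℕ} (hq : q ≤ d) :
    eps d q = Real.sqrt (1 + phi d q ^ 2) - 1 := sorry

theorem eps_bounds {d : ℕ} (hd : 100 ≤ d) {q : ℕ} (hq : q ≤ d) :
    phi d q ^ 2 / 2 - phi d q ^ 4 / 8 ≤ eps d q ∧ eps d q ≤ phi d q ^ 2 / 2 ∧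
    1 / (5 * (d : ℝ) ^ 2) ≤ eps d q ∧ eps d q ≤ 1 / (2 * (d : ℝ) ^ 2) := sorry

theorem eps_anti {d : ℕ} (hd : 100 ≤ d) {q q' : ℕ} (h : q ≤ q') (hq : q' ≤ d) :
    eps d q' ≤ eps d q := sorry

end H282R4.PU
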