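import Pool.Agent.H282R4.PU.Defs

namespace H282R4.PU

open MeasureTheory
open H282R3.SQ (USq)

theorem r_bounds {d : ℕ} (hd : 100 ≤ d) {q i : ℕ} (hq : q ≤ d) :
    aa d i ≤ r d q i * eps d q ∧ r d q i * eps d q ≤ aa d i + eps d q := sorry

theorem r_mono {d : ℕ} (hd : 100 ≤ d) {q q' i i' : ℕ} (h : q ≤ q') (hq : q' ≤ d) (hi : i ≤ i') :
    r d q i ≤ r d q' i' := sorry

theorem r_le {d : ℕ} (hd : 100 ≤ d) {q i : ℕ} (hq : q ≤ d) (hi : i < d) :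
    r d q i ≤ 5 * d ^ 2 + 6 * d := sorry

theorem top_bounds {d : ℕ} (hd : 100 ≤ d) {q : ℕ} (hq : q ≤ d) :
    d + 3 ≤ top d q ∧ top d q ≤ 6 * d ^ 2 := sorry

theorem top_mono {d : ℕ} (hd : 100 ≤ d) {q q' : ℕ} (h : q ≤ q') (hq : q' ≤ d) :
    top d q ≤ top d q' := sorry

theorem B_bounds {d : ℕ} (hd : 100 ≤ d) {q : ℕ} (hq : q ≤ d) :
    (q : ℝ) * d ^ 2 ≤ B d q ∧ B d q ≤ q * ((d : ℝ) ^ 2 + 1 / 2 + 8 / d) := sorry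

theorem B_diff {d : ℕ} (hd : 100 ≤ d) {q q' : ℕ} (h : q ≤ q') (hq : q' ≤ d) :
    ((q' : ℝ) - q) * d ^ 2 ≤ B d q' - B d q := sorry

theorem Z_bounds {d : ℕ} (hd : 100 ≤ d) :
    B d d + 3 * (d : ℝ) ^ 2 ≤ Z d ∧ Z d ≤ B d d + 4 * (d : ℝ) ^ 2 ∧ (d : ℝ) ^ 3 ≤ Z d ∧
    Z d ≤ 2 * (d : ℝ) ^ 3 ∧ t d * Z d = ((d : ℝ) + 3) * s d := sorry

theorem cc_bounds {d : ℕ} (hd : 100 ≤ d) {q : ℕ} (hq : q ≤ d) :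
    0 ≤ cc d q ∧ cc d q ≤ 3 / d := sorry

theorem gg_iff {d : ℕ} (hd : 100 ≤ d) {q : ℕ} (hq : q ≤ d) (ρ i : ℕ) (hi : i < d) :
    i < gg d q ρ ↔ r d q i ≤ ρ := sorry

theorem gg_le (d q ρ : ℕ) : gg d q ρ ≤ d := sorry

end H282R4.PU
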