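import Pool.Agent.H282R4.PU.Defs

namespace H282R4.PU

open MeasureTheory
open H282R3.SQ (USq)

theorem rect_big {d M : ℕ} (hd : 100 ≤ d) {A X : ℝ} (hA : 4 * (d : ℝ) ^ 4 ≤ A)
    (hA' : A ≤ 9 * (d : ℝ) ^ 4) (h1 : (M : ℝ) + t d ≤ A * s d)
    (h2 : A * s d ≤ M + t d + 1 / (d : ℝ) ^ 2) (hX : 60 * (d : ℝ) ^ 2 ≤ X) :
    Wle (Set.Icc 0 A ×ˢ Set.Icc 0 X) (10000 * (d : ℝ) ^ 3 + (X + 20 * (d : ℝ) ^ 2) * (4 / (d : ℝ) ^ 2)) := sorry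

end H282R4.PU
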