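import Pool.Agent.H282R4.PU.Defs

namespace H282R4.PU

open MeasureTheory
open H282R3.SQ (USq)

theorem rect_wle (a b p u v u' v' w : ℝ) (n : ℕ) (Ω : Set (ℝ × ℝ)) (hab : a ^ 2 + b ^ 2 = 1)
    (hin : ∀ z, p < ax a b z → ax a b z < p + 1 → u < al a b z → al a b z < v → z ∈ Ω)
    (hout : ∀ z ∈ Ω, p ≤ ax a b z ∧ ax a b z ≤ p + 1 ∧ u' ≤ al a b z ∧ al a b z ≤ v')
    (h1 : u + n ≤ v) (h2 : v' - u' ≤ n + w) (hw : 0 ≤ w) : Wle Ω w := sorry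

theorem strip_wle3 (a b p f0 f1 g0 g1 : ℝ) (Ω : Set (ℝ × ℝ)) (hab : a ^ 2 + b ^ 2 = 1)
    (hf : |f1| ≤ 1) (hg : |g1| ≤ 1)
    (hin : ∀ z, p < ax a b z → ax a b z < p + 1 → f0 + f1 * (ax a b z - p) < al a b z →
      al a b z < g0 + g1 * (ax a b z - p) → z ∈ Ω)
    (hout : ∀ z ∈ Ω, p ≤ ax a b z ∧ ax a b z ≤ p + 1 ∧ f0 + f1 * (ax a b z - p) ≤ al a b z ∧
      al a b z ≤ g0 + g1 * (ax a b z - p)) : Wle Ω 3 := sorry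

end H282R4.PU
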