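import Pool.Agent.H282R4.PU.Defs

namespace H282R4.PU

open MeasureTheory
open H282R3.SQ (USq)

theorem row_wle {d M R : ℕ} (hd : 100 ≤ d) {A : ℝ} (hA : 0 ≤ A) (h1 : (M : ℝ) + t d ≤ A * s d)
    (h2 : A * s d ≤ M + t d + 1 / (d : ℝ) ^ 2) :
    Wle {z : ℝ × ℝ | 0 ≤ z.1 ∧ z.1 < A ∧ z ∈ Row d R} (4 / (d : ℝ) ^ 2) := sorry

end H282R4.PU
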