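import Pool.Agent.H282R4.PU.Defs

namespace H282R4.PU

open MeasureTheory
open H282R3.SQ (USq)

theorem square_wle : ∃ C : ℝ, 0 < C ∧ ∀ x : ℝ, 1 ≤ x →
    Wle (Set.Icc 0 x ×ˢ Set.Icc 0 x) (C * x ^ ((3 : ℝ) / 5)) := sorry

end H282R4.PU
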