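import Pool.Agent.H282R4.PU.Defs

namespace H282R4.PU

open MeasureTheory
open H282R3.SQ (USq)

theorem T1_wle {d : ℕ} (hd : 100 ≤ d) {A c : ℝ} (hA : 4 * (d : ℝ) ^ 4 ≤ A)
    (hA' : A ≤ 9 * (d : ℝ) ^ 4) (hc : 0 ≤ c) (hc' : c < s d) :
    Wle (T1 d A c (20 * d ^ 2)) (5000 * (d : ℝ) ^ 3) := sorry

end H282R4.PU
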