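import Pool.Agent.H282R4.PU.Defs

namespace H282R4.PU

open MeasureTheory
open H282R3.SQ (USq)

theorem triv_wle {x1 x2 m h : ℝ} (hx : x1 ≤ x2) (h0 : 0 ≤ x1) (hm : 0 ≤ m) (hm1 : m ≤ 1)
    (hh : m * x2 ≤ h) :
    Wle {z : ℝ × ℝ | x1 ≤ z.1 ∧ z.1 < x2 ∧ 0 ≤ z.2 ∧ z.2 + m * z.1 < h} (2 * (x2 - x1) + h + 2) := sorry

end H282R4.PU
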