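import Pool.Agent.H282R4.PU.Defs
import Pool.Agent.H282R4.PK.Pack

namespace H282R4.PU

open MeasureTheory
open H282R3.SQ (USq)

theorem waste_le_of_Wle {x w : ℝ} (hx : 0 ≤ x) (h : Wle (Set.Icc 0 x ×ˢ Set.Icc 0 x) w) :
    H282R4.PK.Waste x ≤ w := sorry

end H282R4.PU
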