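import Pool.Agent.H282R4.PU.St.ChooseA
import Pool.Agent.H282R4.PU.St.Count
import Pool.Agent.H282R4.PU.St.Cover
import Pool.Agent.H282R4.PU.St.Disj
import Pool.Agent.H282R4.PU.St.ExVol
import Pool.Agent.H282R4.PU.St.Frame
import Pool.Agent.H282R4.PU.St.LCW
import Pool.Agent.H282R4.PU.St.Order
import Pool.Agent.H282R4.PU.St.Par
import Pool.Agent.H282R4.PU.St.Par2
import Pool.Agent.H282R4.PU.St.RectBig
import Pool.Agent.H282R4.PU.St.RectW
import Pool.Agent.H282R4.PU.St.RowW
import Pool.Agent.H282R4.PU.St.SPW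
import Pool.Agent.H282R4.PU.St.SegAny
import Pool.Agent.H282R4.PU.St.SegShort
import Pool.Agent.H282R4.PU.St.Square
import Pool.Agent.H282R4.PU.St.Sub
import Pool.Agent.H282R4.PU.St.T1W
import Pool.Agent.H282R4.PU.St.Triv
import Pool.Agent.H282R4.PU.St.Upper
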