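import Pool.Agent.H282R4.PU.Defs

namespace H282R4.PU

open MeasureTheory
open H282R3.SQ (USq)

theorem choose_A {d : ℕ} (hd : 100 ≤ d) {x : ℝ} (hx : 20 * (d : ℝ) ^ 4 ≤ x) :
    ∃ N M : ℕ, 4 * (d : ℝ) ^ 4 ≤ x - N ∧ x - N ≤ 9 * (d : ℝ) ^ 4 ∧
      (M : ℝ) + t d ≤ (x - N) * s d ∧ (x - N) * s d ≤ M + t d + 1 / (d : ℝ) ^ 2 := sorry

end H282R4.PU
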