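import Pool.Agent.H282R4.PU.Defs

namespace H282R4.PU

open MeasureTheory
open H282R3.SQ (USq)

theorem SP_wle {d H : ℕ} (hd : 100 ≤ d) (hH : 6 * d ^ 2 ≤ H) (hH' : H ≤ 30 * d ^ 2) :
    Wle (SP d H) (440 * (d : ℝ) ^ 2) := sorry

end H282R4.PU
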